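import Pool.Agent.W84.G.Defs
import Pool.Agent.W78.GA.Basic
import Pool.Agent.W803.GA.Pair
import Pool.Agent.H304R2.Legendre

/-!
Project G4 (helper84): an element of the colour with an odd number of prime factors, negative
discriminant. Port of `W80/GC/U0.lean`.
-/

set_option autoImplicit false

namespace Pool.Agent.W191.G

open Finset Filter
open Pool.Agent.H304R2 (exists_prime_root box_pigeon no_sol)
open Pool.Agent.H376R2.MR
open Pool.Agent.W78.GA
open Pool.Agent.W803.GA (exists_primpart)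
open Pool.Agent.W84.G (cg S_UN)

theorem exists_norm_prime' (D : ℤ) (hD : ¬ IsSquare D) :
    ∃ p : ℕ, p.Prime ∧ (4 * D) ∣ (p : ℤ) - 1 ∧ ∃ x y w : ℤ, 0 < x ∧ 0 < y ∧ 0 < w ∧
      x ^ 2 - D * y ^ 2 = p * w ^ 2 := by
  have hD0 : D ≠ 0 := by rintro rfl; exact hD ⟨0, by simp⟩
  have hpos := Int.natAbs_pos.mpr hD0
  obtain ⟨p, hp, hmod, hgt, ν, hν⟩ := exists_prime_root D hD0
  have hp0 : (0 : ℤ) < p := by exact_mod_cast hp.pos
  obtain ⟨x, y, z, hne, hx, hy, hz, d1, d2, d3⟩ := box_pigeon D.natAbs hpos p hp.pos ν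
  have hpi : Prime (p : ℤ) := Nat.prime_iff_prime_int.mp hp
  have hpD : ¬ (p : ℤ) ∣ D := by
    intro h
    have h2 := Int.natAbs_dvd_natAbs.mpr h
    rw [Int.natAbs_natCast] at h2
    have := Nat.le_of_dvd hpos h2
    omega
  have hm1 : (4 * D) ∣ (p : ℤ) - 1 := by
    have h1 := (Nat.modEq_iff_dvd.mp hmod.symm)
    push_cast at h1
    have h2 : |4 * D| ∣ (p : ℤ) - 1 := by
      rw [abs_mul]; simpa using h1
    exact (abs_dvd _ _).mp h2
  -- reduce to a statement with nonzero coordinates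
  suffices h : ∃ x y w : ℤ, w ≠ 0 ∧ x ^ 2 - D * y ^ 2 = p * w ^ 2 by
    obtain ⟨x, y, w, hw, h⟩ := h
    have hx0 : x ≠ 0 := by
      rintro rfl
      apply no_sol (-D) p hp (by rwa [dvd_neg]) y w hw
      linarith
    have hy0 : y ≠ 0 := by
      rintro rfl
      apply no_sol 1 p hp (fun h => hpi.not_isUnit (isUnit_of_dvd_one h)) x w hw
      linarith
    exact ⟨p, hp, hm1, |x|, |y|, |w|, abs_pos.mpr hx0, abs_pos.mpr hy0, abs_pos.mpr hw, by
      rw [sq_abs, sq_abs, sq_abs]; exact h⟩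
  set F := x ^ 2 - D * y ^ 2 - p * z ^ 2 with hF
  have hDa : (D.natAbs : ℤ) = |D| := Int.natCast_natAbs D
  rw [hDa] at hx hz d2
  -- divisibility by 4 |D|
  have hm2 : (2 * D) ∣ x - z := by
    have h2 : |2 * D| ∣ x - z := by
      rw [abs_mul]; simpa using d2
    exact (abs_dvd _ _).mp h2
  obtain ⟨k, hk⟩ := hm2
  obtain ⟨y', hy'⟩ := d1
  obtain ⟨l, hl⟩ := hm1
  have f1 : (4 * D) ∣ F := by
    refine ⟨k * z + D * k ^ 2 - y' ^ 2 - l * z ^ 2, ?_⟩
    have hx' : x = z + 2 * D * k := by linarith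
    have hp' : (p : ℤ) = 1 + 4 * D * l := by linarith
    rw [hF, hx', hy', hp']
    ring
  have f2 : (p : ℤ) ∣ F := by
    obtain ⟨m, hm⟩ := d3
    obtain ⟨n, hn⟩ := hν
    refine ⟨p * m ^ 2 + 2 * m * ν * y + n * y ^ 2 - z ^ 2, ?_⟩
    have hx' : x = ν * y + p * m := by linarith
    have hD' : D = ν ^ 2 - p * n := by linarith
    have : F = (ν * y + p * m) ^ 2 - (ν ^ 2 - p * n) * y ^ 2 - p * z ^ 2 := by
      rw [hF, ← hx', ← hD']
    rw [this]
    ring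
  have cop : IsCoprime (4 * D) (p : ℤ) := by
    refine ⟨-l, 1, ?_⟩
    linarith
  have f3 : (4 * D) * p ∣ F := cop.mul_dvd f1 f2
  obtain ⟨m, hm⟩ := f3
  have hcase : F = 0 ∨ F = -(4 * D * p) := by
    rcases lt_or_gt_of_ne hD0 with hneg | hposD
    · rw [abs_of_neg hneg] at hx hz
      have g1 : F ≤ 6 * (-D) * p := by
        have : (-D) * y ^ 2 ≤ (-D) * (3 * p) := mul_le_mul_of_nonneg_left hy (by linarith)
        have h3 : 0 ≤ p * z ^ 2 := by positivity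
        rw [hF]; linarith
      have g2 : -(3 * (-D) * p) ≤ F := by
        have : p * z ^ 2 ≤ p * (3 * -D) := mul_le_mul_of_nonneg_left hz hp0.le
        have h3 : 0 ≤ (-D) * y ^ 2 := mul_nonneg (by linarith) (sq_nonneg _)
        have h4 := sq_nonneg x
        rw [hF]; linarith
      have hDp : 0 < (-D) * p := mul_pos (by linarith) hp0
      rw [hm] at g1 g2
      have m1 : m ≤ 0 := by
        by_contra hc
        have : (-D) * p * 1 ≤ (-D) * p * m := mul_le_mul_of_nonneg_left (by omega) hDp.le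
        nlinarith
      have m2 : -1 ≤ m := by
        by_contra hc
        have : (-D) * p * m ≤ (-D) * p * (-2) := mul_le_mul_of_nonneg_left (by omega) hDp.le
        nlinarith
      have : m = 0 ∨ m = -1 := by omega
      rcases this with h | h
      · left; rw [hm, h]; ring
      · right; rw [hm, h]; ring
    · rw [abs_of_pos hposD] at hx hz
      have g1 : F ≤ 3 * D * p := by
        have : 0 ≤ D * y ^ 2 := by positivity
        have h3 : 0 ≤ p * z ^ 2 := by positivity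
        rw [hF]; linarith
      have g2 : -(6 * D * p) ≤ F := by
        have : p * z ^ 2 ≤ p * (3 * D) := mul_le_mul_of_nonneg_left hz hp0.le
        have h3 : D * y ^ 2 ≤ D * (3 * p) := mul_le_mul_of_nonneg_left hy hposD.le
        have h4 := sq_nonneg x
        rw [hF]; linarith
      have hDp : 0 < D * p := mul_pos hposD hp0
      rw [hm] at g1 g2
      have m1 : m ≤ 0 := by
        by_contra hc
        have : D * p * 1 ≤ D * p * m := mul_le_mul_of_nonneg_left (by omega) hDp.le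
        nlinarith
      have m2 : -1 ≤ m := by
        by_contra hc
        have : D * p * m ≤ D * p * (-2) := mul_le_mul_of_nonneg_left (by omega) hDp.le
        nlinarith
      have : m = 0 ∨ m = -1 := by omega
      rcases this with h | h
      · left; rw [hm, h]; ring
      · right; rw [hm, h]; ring
  rcases hcase with h0 | h4
  · refine ⟨x, y, z, ?_, by linarith⟩
    rintro rfl
    have h5 : x ^ 2 = D * y ^ 2 := by linarith
    have hy0 : y ≠ 0 := by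
      rintro rfl
      have : x = 0 := by
        have : x ^ 2 = 0 := by linarith
        exact pow_eq_zero_iff (two_ne_zero) |>.mp this
      exact hne (by rw [this])
    apply hD
    have : y ^ 2 ∣ x ^ 2 := ⟨D, by linarith⟩
    obtain ⟨q, hq⟩ := (Int.pow_dvd_pow_iff (two_ne_zero)).mp this
    refine ⟨q, ?_⟩
    have h6 : y ^ 2 * D = y ^ 2 * (q * q) := by rw [hq] at h5; linarith
    exact mul_left_cancel₀ (pow_ne_zero 2 hy0) h6
  · refine ⟨x * z - 2 * D * y, y * z - 2 * x, z ^ 2 - 4 * D, ?_, ?_⟩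
    · intro h
      apply hD
      have : (2 : ℤ) ^ 2 ∣ z ^ 2 := ⟨D, by linarith⟩
      obtain ⟨q, hq⟩ := (Int.pow_dvd_pow_iff (two_ne_zero)).mp this
      refine ⟨q, ?_⟩
      rw [hq] at h
      linarith
    · have h5 : x ^ 2 - D * y ^ 2 = p * (z ^ 2 - 4 * D) := by linarith
      have : (x * z - 2 * D * y) ^ 2 - D * (y * z - 2 * x) ^ 2 =
          (x ^ 2 - D * y ^ 2) * (z ^ 2 - 4 * D) := by ring
      rw [this, h5]
      ring


/-- square roots modulo `4 a^k` -/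
lemma sqrt_lift {p a : ℤ} (h : 4 * a ∣ p - 1) (k : ℕ) (hk : 1 ≤ k) :
    ∃ c : ℤ, 2 * a ∣ c - 1 ∧ 4 * a ^ k ∣ c ^ 2 - p := by
  induction k, hk using Nat.le_induction with
  | base =>
    refine ⟨1, by simp, ?_⟩
    rw [pow_one, one_pow]
    rw [← dvd_neg]; simpa using h
  | succ k hk ih =>
    obtain ⟨c, hc1, e, he⟩ := ih
    obtain ⟨g, hg⟩ := hc1
    -- `c` is coprime to `a`
    have hcop : ∃ f u : ℤ, f * c = -e + a * u := by
      refine ⟨-e, e * (-2 * g), ?_⟩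
      have : c = 1 + 2 * a * g := by linarith
      rw [this]; ring
    obtain ⟨f, u, hf⟩ := hcop
    obtain ⟨k', rfl⟩ : ∃ k', k = k' + 1 := ⟨k - 1, by omega⟩
    refine ⟨c + 2 * a ^ (k' + 1) * f, ?_, ?_⟩
    · refine ⟨g + a ^ k' * f, ?_⟩
      have : c = 1 + 2 * a * g := by linarith
      rw [this]; ring
    · refine ⟨u + a ^ k' * f ^ 2, ?_⟩
      have e1 : (c + 2 * a ^ (k' + 1) * f) ^ 2 - p =
        (c ^ 2 - p) + 4 * a ^ (k' + 1) * (f * c) + 4 * a ^ (2 * (k' + 1)) * f ^ 2 := by ring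
      rw [e1, he, hf]
      ring

lemma pow_cancel {Q n Z K : ℕ} (hn0 : n ≠ 0) (hn : n ≤ K) (h : Q ^ (K + 1) ∣ n * Z) : Q ∣ Z := by
  rw [Nat.dvd_iff_prime_pow_dvd_dvd]
  intro q k hq hk
  rcases Nat.eq_zero_or_pos k with rfl | hk1
  · simp
  obtain ⟨f, n', hn', hnf⟩ := Nat.exists_eq_pow_mul_and_not_dvd hn0 q hq.ne_one
  have hn'0 : 0 < n' := by
    rcases Nat.eq_zero_or_pos n' with h0 | h0
    · rw [h0] at hn'; exact absurd (dvd_zero q) hn'
    · exact h0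
  have hf : f < n := by
    calc f < q ^ f := Nat.lt_pow_self hq.one_lt
      _ ≤ q ^ f * n' := Nat.le_mul_of_pos_right _ hn'0
      _ = n := hnf.symm
  have hkK : f + k ≤ k * (K + 1) := by
    have h1 : f ≤ k * K := by
      calc f ≤ K := by omega
        _ = 1 * K := (one_mul K).symm
        _ ≤ k * K := Nat.mul_le_mul_right K hk1
    calc f + k ≤ k * K + k := by omega
      _ = k * (K + 1) := by ring
  have h1 : q ^ (f + k) ∣ q ^ f * (n' * Z) := by
    rw [← mul_assoc, ← hnf]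
    refine (pow_dvd_pow q hkK).trans ?_
    rw [pow_mul]
    exact (pow_dvd_pow_of_dvd hk (K + 1)).trans h
  rw [pow_add] at h1
  have h2 : q ^ k ∣ n' * Z := Nat.dvd_of_mul_dvd_mul_left (pow_pos hq.pos f) h1
  have h3 : Nat.Coprime (q ^ k) n' :=
    Nat.Coprime.pow_left k ((Nat.Prime.coprime_iff_not_dvd hq).2 hn')
  exact h3.dvd_of_dvd_mul_left h2

lemma jac_spl {D : ℤ} : ∀ n : ℕ, n ≠ 0 → (∀ p : ℕ, p.Prime → p ∣ n → jacobiSym D p = 1) →
    jacobiSym D n = 1 := by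
  intro n
  induction n using Nat.strong_induction_on with
  | _ n ih =>
    intro hn h
    by_cases h1 : n = 1
    · rw [h1, jacobiSym.one_right]
    obtain ⟨p, hp, m, rfl⟩ := Nat.exists_prime_and_dvd h1
    have hm : m ≠ 0 := by rintro rfl; simp at hn
    haveI : NeZero p := ⟨hp.ne_zero⟩
    haveI : NeZero m := ⟨hm⟩
    rw [jacobiSym.mul_right, h p hp (dvd_mul_right _ _), one_mul]
    apply ih m ?_ hm
    · intro q hq hqm
      exact h q hq (hqm.mul_left p)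
    · calc m = 1 * m := (one_mul m).symm
        _ < p * m := Nat.mul_lt_mul_of_pos_right hp.one_lt (Nat.pos_of_ne_zero hm)

lemma jac_one {D : ℤ} {Q m : ℕ} (hQ : 4 * D ∣ (Q : ℤ)) (h : (Q : ℤ) ∣ (m : ℤ) - 1) :
    jacobiSym D m = 1 := by
  have h4 : (4 * D) ∣ (m : ℤ) - 1 := hQ.trans h
  have hodd : Odd m := by
    have h2 : (4 : ℤ) ∣ (m : ℤ) - 1 := (Dvd.intro _ rfl).trans h4
    rw [Nat.odd_iff]
    omega
  have h5 : m % (4 * D.natAbs) = 1 % (4 * D.natAbs) := by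
    have h6 : ((4 * D.natAbs : ℕ) : ℤ) ∣ (m : ℤ) - 1 := by
      push_cast
      have : |4 * D| ∣ (m : ℤ) - 1 := (abs_dvd _ _).2 h4
      rwa [abs_mul, abs_of_pos (by norm_num : (0 : ℤ) < 4)] at this
    have h7 : 1 ≡ m [MOD (4 * D.natAbs)] := by
      rw [Nat.modEq_iff_dvd]
      exact_mod_cast h6
    exact h7.symm
  rw [jacobiSym.mod_right _ hodd, h5, ← jacobiSym.mod_right _ odd_one, jacobiSym.one_right]

lemma dvd_of_sq_dvd {p n W z : ℕ} (hp : p.Prime) (hn : 0 < n) (h : n ^ 2 * z = p * W ^ 2) :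
    n ∣ W := by
  obtain ⟨n', W', hcop, h1, h2⟩ := Nat.exists_coprime n W
  set g := Nat.gcd n W with hg
  have hg0 : 0 < g := Nat.gcd_pos_of_pos_left _ hn
  have h3 : n' ^ 2 * z = p * W' ^ 2 := by
    have h4 : g ^ 2 * (n' ^ 2 * z) = g ^ 2 * (p * W' ^ 2) := by
      calc g ^ 2 * (n' ^ 2 * z) = (n' * g) ^ 2 * z := by ring
        _ = p * (W' * g) ^ 2 := by rw [← h1, ← h2, h]
        _ = g ^ 2 * (p * W' ^ 2) := by ring
    exact Nat.eq_of_mul_eq_mul_left (by positivity) h4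
  have h4 : n' ^ 2 ∣ p * W' ^ 2 := ⟨z, h3.symm⟩
  have h5 : n' ^ 2 ∣ p := (Nat.Coprime.pow 2 2 hcop).dvd_of_dvd_mul_right h4
  have h6 : n' = 1 := by
    rcases (Nat.dvd_prime hp).1 ((Dvd.intro_left (n' ^ 1) (by ring)).trans h5 : n' ∣ p) with h | h
    · exact h
    · exfalso
      rw [h] at h5
      have h7 := Nat.le_of_dvd hp.pos h5
      have h8 := hp.one_lt
      nlinarith
  rw [h6, one_mul] at h1
  rw [h1, h2]
  exact dvd_mul_left _ _


variable {t c : ℤ} {Q : ℕ}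

/-- primitive elements of norm prime to `Q` have split norms -/
lemma spl_cop {z : Qd t c} (hd : t ^ 2 < 4 * c) (hp : prim z)
    (hc : (nm z).Coprime Q) (h2 : 2 ∣ Q) (hdQ : (t ^ 2 - 4 * c) ∣ (Q : ℤ)) :
    ∀ p : ℕ, p.Prime → p ∣ nm z → jacobiSym (t ^ 2 - 4 * c) p = 1 := by
  intro p hpp hpz
  haveI : Fact p.Prime := ⟨hpp⟩
  have hpz' : (p : ℤ) ∣ (nm z : ℤ) := Int.natCast_dvd_natCast.2 hpz
  have hpQ : ¬ (p : ℤ) ∣ (Q : ℤ) := by
    intro h3
    have h4 : p ∣ Q := by exact_mod_cast h3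
    have h5 : p ∣ 1 := by
      rw [← hc]
      exact Nat.dvd_gcd hpz h4
    exact hpp.one_lt.ne' (Nat.dvd_one.1 h5)
  have hp2 : ¬ (p : ℤ) ∣ 2 := fun h3 => hpQ (h3.trans (by exact_mod_cast h2))
  have hpd : ¬ (p : ℤ) ∣ t ^ 2 - 4 * c := fun h3 => hpQ (h3.trans hdQ)
  have hpi := Nat.prime_iff_prime_int.1 hpp
  have h4 : (4 : ℤ) * nm z = (2 * z.re + t * z.im) ^ 2 - (t ^ 2 - 4 * c) * z.im ^ 2 := by
    rw [nm_cast hd]; ring
  have him : ¬ (p : ℤ) ∣ z.im := by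
    intro h3
    have h5 : (p : ℤ) ∣ (2 * z.re + t * z.im) ^ 2 := by
      have e : (2 * z.re + t * z.im) ^ 2 = 4 * nm z + z.im * ((t ^ 2 - 4 * c) * z.im) := by
        rw [h4]; ring
      rw [e]
      exact dvd_add (hpz'.mul_left 4) (h3.mul_right _)
    have h6 := hpi.dvd_of_dvd_pow h5
    have h7 : (p : ℤ) ∣ 2 * z.re := by
      have e : 2 * z.re = (2 * z.re + t * z.im) - z.im * t := by ring
      rw [e]
      exact dvd_sub h6 (h3.mul_right t)
    rcases hpi.dvd_or_dvd h7 with h8 | h8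
    · exact hp2 h8
    · have h9 := Int.dvd_coe_gcd h8 h3
      unfold prim at hp
      rw [hp] at h9
      exact hpi.not_isUnit (isUnit_of_dvd_one (by simpa using h9))
  rw [← jacobiSym.legendreSym.to_jacobiSym]
  have hne : ((t ^ 2 - 4 * c : ℤ) : ZMod p) ≠ 0 := by
    rw [Ne, ZMod.intCast_zmod_eq_zero_iff_dvd]
    exact hpd
  rw [legendreSym.eq_one_iff p hne]
  have hine : ((z.im : ℤ) : ZMod p) ≠ 0 := by
    rw [Ne, ZMod.intCast_zmod_eq_zero_iff_dvd]
    exact him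
  refine ⟨((2 * z.re + t * z.im : ℤ) : ZMod p) * ((z.im : ℤ) : ZMod p)⁻¹, ?_⟩
  have h10 : ((4 * (nm z : ℤ) : ℤ) : ZMod p) = 0 := by
    rw [ZMod.intCast_zmod_eq_zero_iff_dvd]
    exact hpz'.mul_left 4
  rw [h4] at h10
  push_cast at h10 ⊢
  field_simp
  linear_combination -h10

theorem un (hd : t ^ 2 < 4 * c) : S_UN t c := by
  intro Q hQ1 hQ
  set Δ : ℤ := t ^ 2 - 4 * c with hΔ
  have hΔ0 : Δ < 0 := by rw [hΔ]; linarith
  have hQz : (0 : ℤ) < Q := by exact_mod_cast hQ1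
  have h2Q : 2 ∣ Q := by
    have h1 : (4 : ℤ) ∣ Q := (Dvd.intro _ rfl).trans hQ
    have h2 : (2 : ℤ) ∣ Q := (by norm_num : (2 : ℤ) ∣ 4).trans h1
    exact_mod_cast h2
  have hdQ : Δ ∣ (Q : ℤ) := (Dvd.intro_left 4 rfl).trans hQ
  have hsq : ¬ IsSquare (Δ * (Q : ℤ) ^ 2) := by
    rintro ⟨r, hr⟩
    have : 0 < (Q : ℤ) ^ 2 := by positivity
    nlinarith [mul_self_nonneg r]
  obtain ⟨p, hp, ⟨l, hl⟩, x, y, w, hx, hy, hw, hxy⟩ := exists_norm_prime' _ hsq
  have hpi : Prime (p : ℤ) := Nat.prime_iff_prime_int.mp hp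
  have hp0 : (0 : ℤ) < p := by exact_mod_cast hp.pos
  have hap : 4 * (Q : ℤ) ∣ (p : ℤ) - 1 := ⟨Δ * Q * l, by rw [hl]; ring⟩
  have hpQ : (Q : ℤ) ∣ (p : ℤ) - 1 := (Dvd.intro_left 4 rfl).trans hap
  set y₁ : ℤ := Q * y with hy₁
  have hy₁0 : 0 < y₁ := by positivity
  have hxy1 : x ^ 2 - Δ * y₁ ^ 2 = p * w ^ 2 := by rw [← hxy, hy₁]; ring
  set E : ℤ := 4 * Δ * y₁ ^ 2 with hE
  have hE0 : E ≠ 0 := by
    rw [hE]
    have : 0 < y₁ ^ 2 := by positivity
    intro h0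
    nlinarith
  set F₀ : ℤ := 2 * y₁ * p * E with hF₀
  have hF₀0 : F₀ ≠ 0 := by
    rw [hF₀]
    exact mul_ne_zero (by positivity) hE0
  set K : ℕ := F₀.natAbs with hK
  obtain ⟨c₁, hc1, hr1⟩ := sqrt_lift hap (K + 1) (by omega)
  -- a positive square root
  obtain ⟨c₀, hc0, hc0', hc02⟩ : ∃ c₀ : ℤ, 0 < c₀ ∧ (Q : ℤ) ∣ c₀ - 1 ∧
      (Q : ℤ) ^ (K + 1) ∣ c₀ ^ 2 - p := by
    refine ⟨c₁ + 4 * (Q : ℤ) ^ (K + 1) * (|c₁| + 1), ?_, ?_, ?_⟩
    · have h1 : 0 < (Q : ℤ) ^ (K + 1) := by positivity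
      have h2 : |c₁| + 1 ≤ 4 * (Q : ℤ) ^ (K + 1) * (|c₁| + 1) := by
        have h3 : 0 ≤ |c₁| + 1 := by positivity
        nlinarith
      have h3 := neg_abs_le c₁
      linarith
    · have h1 : (Q : ℤ) ∣ c₁ - 1 := (Dvd.intro_left 2 rfl).trans hc1
      have e : c₁ + 4 * (Q : ℤ) ^ (K + 1) * (|c₁| + 1) - 1 = (c₁ - 1) +
          Q * (4 * (Q : ℤ) ^ K * (|c₁| + 1)) := by ring
      rw [e]
      exact dvd_add h1 (dvd_mul_right _ _)
    · have h1 : (Q : ℤ) ^ (K + 1) ∣ c₁ ^ 2 - p := (Dvd.intro_left 4 rfl).trans hr1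
      have e : (c₁ + 4 * (Q : ℤ) ^ (K + 1) * (|c₁| + 1)) ^ 2 - p = (c₁ ^ 2 - p) +
          (Q : ℤ) ^ (K + 1) * (8 * c₁ * (|c₁| + 1) +
            16 * (Q : ℤ) ^ (K + 1) * (|c₁| + 1) ^ 2) := by ring
      rw [e]
      exact dvd_add h1 (dvd_mul_right _ _)
  -- the element
  set X : ℤ := (c₀ ^ 2 + p) * x + 2 * p * c₀ * w with hX
  set Y : ℤ := (c₀ ^ 2 - p) * y₁ with hY
  set W : ℤ := (c₀ ^ 2 + p) * w + 2 * c₀ * x with hW
  have hX0 : 0 < X := by rw [hX]; positivity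
  have hW0 : 0 < W := by rw [hW]; positivity
  have hid : X ^ 2 - Δ * Y ^ 2 = p * W ^ 2 := by
    rw [hX, hY, hW]
    linear_combination (c₀ ^ 2 - p) ^ 2 * hxy1
  set u : Qd t c := ⟨X - t * Y, 2 * Y⟩ with hu
  have hnu : (nm u : ℤ) = p * W ^ 2 := by
    rw [nm_cast hd, hu]
    simp only
    rw [← hid, hΔ]; ring
  have hu0 : u ≠ 0 := by
    intro h0
    have h1 : (0 : ℤ) < nm u := by rw [hnu]; positivity
    rw [h0] at h1
    unfold nm at h1
    simp at h1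
  obtain ⟨z, n, hn, hz, huz⟩ := exists_primpart hu0
  have hnz : (0 : ℤ) < n := by exact_mod_cast hn
  have hz0 : z ≠ 0 := by
    rintro rfl
    apply hu0
    rw [huz, mul_zero]
  have g1 : X - t * Y = n * z.re := by
    have := congrArg QuadraticAlgebra.re huz
    rw [hu] at this
    simpa using this
  have g2 : 2 * Y = n * z.im := by
    have := congrArg QuadraticAlgebra.im huz
    rw [hu] at this
    simpa using this
  -- the content divides `F₀`
  have hnF : (n : ℤ) ∣ F₀ := by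
    have h1 : F₀ = 4 * y₁ * (x - c₀ * w) * (X - t * Y) +
        2 * Y * (4 * p * w ^ 2 - 2 * (x - c₀ * w) * (x - t * y₁)) := by
      have h2 : E = 4 * (x ^ 2 - p * w ^ 2) := by rw [hE]; linear_combination (-4) * hxy1
      rw [hF₀, h2, hX, hY]
      ring
    rw [h1, g1, g2]
    exact dvd_add ⟨4 * y₁ * (x - c₀ * w) * z.re, by ring⟩
      ⟨z.im * (4 * p * w ^ 2 - 2 * (x - c₀ * w) * (x - t * y₁)), by ring⟩
  have hnK : n ≤ K := by
    have h1 := Int.natAbs_dvd_natAbs.2 hnF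
    rw [Int.natAbs_natCast] at h1
    exact Nat.le_of_dvd (Int.natAbs_pos.2 hF₀0) h1
  have cancel : ∀ r : ℤ, (Q : ℤ) ^ (K + 1) ∣ n * r → (Q : ℤ) ∣ r := by
    intro r hr
    have h1 := Int.natAbs_dvd_natAbs.2 hr
    rw [Int.natAbs_pow, Int.natAbs_natCast, Int.natAbs_mul, Int.natAbs_natCast] at h1
    have h2 := pow_cancel hn.ne' hnK h1
    exact Int.natCast_dvd.2 h2
  have hQim : (Q : ℤ) ∣ z.im := by
    apply cancel
    rw [← g2, hY]
    exact (hc02.mul_right y₁).mul_left 2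
  -- the norm
  have hnW : n ∣ W.natAbs := by
    apply dvd_of_sq_dvd hp hn (z := nm z)
    have h1 : nm u = n ^ 2 * nm z := by rw [huz, nm_mul, nm_natCast]
    rw [← h1]
    have h2 : ((nm u : ℕ) : ℤ) = ((p * W.natAbs ^ 2 : ℕ) : ℤ) := by
      rw [hnu]; push_cast; rw [sq_abs]
    exact_mod_cast h2
  obtain ⟨w', hw'⟩ := hnW
  have hWw : W = n * w' := by
    have h1 : ((W.natAbs : ℕ) : ℤ) = ((n * w' : ℕ) : ℤ) := by rw [hw']
    rw [Int.natCast_natAbs, abs_of_pos hW0] at h1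
    rw [h1]; push_cast; ring
  have hw'0 : 0 < w' := by
    rcases Nat.eq_zero_or_pos w' with h | h
    · rw [h] at hWw; simp at hWw; omega
    · exact h
  have hnzw : nm z = p * w' ^ 2 := by
    have h1 : (n : ℤ) ^ 2 * nm z = (n : ℤ) ^ 2 * (p * w' ^ 2) := by
      have h2 : nm u = n ^ 2 * nm z := by rw [huz, nm_mul, nm_natCast]
      have h3 : ((nm u : ℕ) : ℤ) = (n : ℤ) ^ 2 * nm z := by rw [h2]; push_cast; ring
      rw [← h3, hnu, hWw]; ring
    have h2 := mul_left_cancel₀ (pow_ne_zero 2 hnz.ne') h1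
    exact_mod_cast h2
  have hQw : (Q : ℤ) ∣ z.re - w' := by
    have h1 : (Q : ℤ) ∣ c₀ * w' - z.re := by
      apply cancel
      have h2 : (n : ℤ) * (c₀ * w' - z.re) = (c₀ ^ 2 - p) * (x + c₀ * w + t * y₁) := by
        have h3 : (n : ℤ) * (c₀ * w' - z.re) = c₀ * (n * w') - n * z.re := by ring
        rw [h3, ← hWw, ← g1, hX, hY, hW]
        ring
      rw [h2]
      exact hc02.mul_right _
    have h2 : z.re - w' = (c₀ - 1) * w' - (c₀ * w' - z.re) := by ring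
    rw [h2]
    exact dvd_sub (hc0'.mul_right _) h1
  have hreQ : IsCoprime z.re (Q : ℤ) := by
    have h1 : IsCoprime z.re z.im := Int.isCoprime_iff_gcd_eq_one.2 hz
    rw [Int.isCoprime_iff_gcd_eq_one]
    by_contra hcon
    obtain ⟨q, hq, hqd⟩ := Nat.exists_prime_and_dvd hcon
    have h2 : (q : ℤ) ∣ z.re := (Int.natCast_dvd_natCast.2 hqd).trans (Int.gcd_dvd_left _ _)
    have h3 : (q : ℤ) ∣ Q := (Int.natCast_dvd_natCast.2 hqd).trans (Int.gcd_dvd_right _ _)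
    have h4 := h1.isUnit_of_dvd' h2 (h3.trans hQim)
    exact (Nat.prime_iff_prime_int.1 hq).not_isUnit h4
  have hwQ : IsCoprime (w' : ℤ) (Q : ℤ) := by
    obtain ⟨r, hr⟩ := hQw
    have h1 : (w' : ℤ) = z.re + Q * (-r) := by linarith
    rw [h1]
    exact (IsCoprime.add_mul_left_left_iff).2 hreQ
  have hpcQ : IsCoprime (p : ℤ) (Q : ℤ) := by
    obtain ⟨r, hr⟩ := hpQ
    exact ⟨1, -r, by linarith⟩
  have hnmQ : (nm z).Coprime Q := by
    rw [hnzw, ← Nat.isCoprime_iff_coprime]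
    push_cast
    exact IsCoprime.mul_left hpcQ hwQ.pow_left
  have hspl := spl_cop hd hz hnmQ h2Q hdQ
  have hJw : jacobiSym Δ w' = 1 := by
    apply jac_spl w' hw'0.ne'
    intro q hq hqw
    apply hspl q hq
    rw [hnzw]
    exact (hqw.trans (Dvd.intro_left w' (by ring))).mul_left p
  -- the inverse of `w'`
  obtain ⟨v, v', hv⟩ := hwQ
  obtain ⟨m, hm1, hm⟩ : ∃ m : ℕ, 0 < m ∧ (Q : ℤ) ∣ (m : ℤ) - v := by
    refine ⟨(v % Q).toNat + Q, by omega, ?_⟩
    have h1 : 0 ≤ v % Q := Int.emod_nonneg _ hQz.ne'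
    push_cast
    rw [Int.toNat_of_nonneg h1]
    have h2 := Int.emod_add_mul_ediv v Q
    exact ⟨1 - v / Q, by linear_combination h2⟩
  have hmw : (Q : ℤ) ∣ ((m * w' : ℕ) : ℤ) - 1 := by
    have e : ((m * w' : ℕ) : ℤ) - 1 = ((m : ℤ) - v) * w' - Q * v' := by
      push_cast; linear_combination hv
    rw [e]
    exact dvd_sub (hm.mul_right _) (dvd_mul_right _ _)
  have hJm : jacobiSym Δ m = 1 := by
    have h1 := jac_one hQ hmw
    haveI : NeZero m := ⟨hm1.ne'⟩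
    haveI : NeZero w' := ⟨hw'0.ne'⟩
    rw [jacobiSym.mul_right, hJw, mul_one] at h1
    exact h1
  refine ⟨z, ⟨hQim, m, hJm, ?_⟩, hz0, ?_, hspl⟩
  · have e : (m : ℤ) * z.re - 1 = m * (z.re - w') + (((m * w' : ℕ) : ℤ) - 1) := by
      push_cast; ring
    rw [e]
    exact dvd_add (hQw.mul_left _) hmw
  · rw [hnzw, mul_comm, lam_sq_mul hw'0.ne' hp.ne_zero, lam_prime hp]

end Pool.Agent.W191.G
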